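import Mathlib
import Pool.Agent.Lib.MP_1818ed_co.Basic
import Pool.Agent.Lib.MP_1818ed_co.Helper
import Pool.Agent.Lib.MP_1818ed_co.Viol
import Pool.Agent.Lib.MP_1818ed_co.Crit
import Pool.Agent.Lib.MP_1818ed_co.Reduce
import Pool.Agent.Lib.MP_1818ed_co.Orient
import Pool.Agent.Lib.MP_1818ed_co.BookDet
import Pool.Agent.Lib.MP_1818ed_co.BookRand
import Pool.Agent.Lib.MP_1818ed_co.Vec
import Pool.Agent.Lib.MP_1818ed_co.Book
import Pool.Agent.Lib.MP_1818ed_co.NumA
import Pool.Agent.Lib.MP_1818ed_co.Num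
import Pool.Agent.Lib.MP_1818ed_co.Main45

/-!
# Chromatic number and hat guessing number of graphs with large chromatic number

There is `n₀` such that every graph on `n ≥ n₀` vertices with `χ(G) ≥ (4/5) n` satisfies
`χ(G) ≤ HG(G)`: for every `q` either there is a winning strategy with `q` colours or `G` is
`(q-1)`-colourable.
-/

set_option autoImplicit false

namespace Pool.Agent.Lib.MP_1818ed_co.Old.FourFifths

open Pool.Agent.Lib.MP_1818ed_co

theorem result :
    ∃ n₀ : ℕ, ∀ (V : Type) [Fintype V] (G : SimpleGraph V), n₀ ≤ Fintype.card V →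
      (∀ r : ℕ, G.Colorable r → 4 * Fintype.card V ≤ 5 * r) →
      ∀ q : ℕ,
        (¬ ∃ f : V → (V → Fin q) → Fin q,
          (∀ (v : V) (c c' : V → Fin q), (∀ u : V, G.Adj v u → c u = c' u) → f v c = f v c') ∧
          ∀ c : V → Fin q, ∃ v : V, f v c = c v) →
        G.Colorable (q - 1) :=
  main45 colors graph helper (reduce colAdd (crit viol))
    (book (bookDet orient) bookRand vec) (num numA)

end Pool.Agent.Lib.MP_1818ed_co.Old.FourFifths
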