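import Mathlib
import Pool.Agent.Lib.MP_1818ed_co.Basic
import Pool.Agent.Lib.MP_1818ed_co.Helper
import Pool.Agent.Lib.MP_1818ed_co.Viol
import Pool.Agent.Lib.MP_1818ed_co.Crit
import Pool.Agent.Lib.MP_1818ed_co.Reduce
import Pool.Agent.Lib.MP_1818ed_co.Orient
import Pool.Agent.Lib.MP_1818ed_co.BookDet
import Pool.Agent.Lib.MP_1818ed_co.BookRand
import Pool.Agent.Lib.MP_1818ed_co.Vec
import Pool.Agent.Lib.MP_1818ed_co.Book
import Pool.Agent.Lib.MP_1818ed_co.NumA
import Pool.Agent.Lib.MP_1818ed_co.Num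
import Pool.Agent.Lib.MP_1818ed_co.Main45
import Pool.Agent.Lib.MP_1818ed_co.Cube
import Pool.Agent.Lib.MP_1818ed_co.AmpDet
import Pool.Agent.Lib.MP_1818ed_co.AmpRand
import Pool.Agent.Lib.MP_1818ed_co.Amp
import Pool.Agent.Lib.MP_1818ed_co.GreedyGame
import Pool.Agent.Lib.MP_1818ed_co.GreedyProb
import Pool.Agent.Lib.MP_1818ed_co.Clq
import Pool.Agent.Lib.MP_1818ed_co.NumLog
import Pool.Agent.Lib.MP_1818ed_co.DenseLog
import Pool.Agent.Lib.MP_1818ed_co.MainD

/-!
# Chromatic number and hat guessing number of graphs with few non-neighbours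

There are `C`, `n₀` such that every graph on `n ≥ n₀` vertices in which, for some set `X` of at most
`n / 6` vertices and some `Δ` with `C Δ log₂ n ≤ n`, every vertex outside `X` has at most `Δ`
non-neighbours outside `X`, satisfies `χ(G) ≤ HG(G)`: for every `q` either there is a winning
strategy with `q` colours or `G` is `(q-1)`-colourable.
-/

set_option autoImplicit false

namespace Pool.Agent.Lib.MP_1818ed_co.Old.SparseComplement

open Pool.Agent.Lib.MP_1818ed_co

theorem result :
    ∃ C n₀ : ℕ, ∀ (V : Type) [Fintype V] (G : SimpleGraph V) (X : Finset V) (Δ : ℕ),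
      n₀ ≤ Fintype.card V → 6 * X.card ≤ Fintype.card V →
      (∀ v, v ∉ X → {u | u ∉ X ∧ u ≠ v ∧ ¬ G.Adj v u}.ncard ≤ Δ) →
      C * Δ * Nat.log 2 (Fintype.card V) ≤ Fintype.card V →
      ∀ q : ℕ,
        (¬ ∃ f : V → (V → Fin q) → Fin q,
          (∀ (v : V) (c c' : V → Fin q), (∀ u : V, G.Adj v u → c u = c' u) → f v c = f v c') ∧
          ∀ c : V → Fin q, ∃ v : V, f v c = c v) →
        G.Colorable (q - 1) := by
  have h45 : FourFifthsStmt := main45 colors graph helper (reduce colAdd (crit viol))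
    (book (bookDet orient) bookRand vec) (num numA)
  have hAmp : AmpStmt := amp cube ampDet ampRand
  have hDL : DenseLogStmt := denseLog colors hAmp greedyGame greedyProb clq numLog
  have hMain : MainDStmt := mainD graph hDL h45
  exact hMain

end Pool.Agent.Lib.MP_1818ed_co.Old.SparseComplement
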